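import Pool.Agent.N399.DM.Main
import Pool.Agent.R890.FF.BF
import Pool.Agent.TH497.BF.Six

set_option autoImplicit false

/-! # Six even subgraphs with every edge in exactly four of them: dominating sets

A finite graph, loops and parallel edges allowed, has vertex set `V` and edge set `E`; the ends of
the edge `e` are `src e` and `dst e`.  Two vertices are called close if they are joined by an edge or
by two different paths with two edges.  If the graph has no cut edge and has a dominating set `D` such
that every vertex of `D` is close to all but at most two of the other vertices of `D`, then it has six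
even subgraphs such that every edge is in exactly four of them.  Examples are the graphs with
domination number at most three, the graphs with total domination number at most four, and the graphs
with a dominating clique, a dominating complete multipartite subgraph with classes of at most three
vertices, or a dominating circuit of length five.

Proof.  The class is closed under the identification of vertices.  Let `H` be a graph obtained from
`G` by identification of vertices which has no nowhere-zero flow over the group of order four and no
Petersen quotient, with as few edges (apart from loops) as possible.  By helper890's files `R890/FF`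
(Kempe chains, and the theorem on at most 16 odd vertices of the starting library `TH362/TF`) `H` has
no circuit with at most four edges, every vertex which is not isolated has at least three neighbours,
and there are at least 18 vertices which are not isolated.  In `H`, close vertices are adjacent.  It
follows (`N399/DM/Ext.lean`) that `H` has a dominating set `J` which is an independent set of three
vertices, two disjoint edges, or a circuit of length five: the non-adjacency graph of `J` is a circuit
`v_0 ... v_{k-1}` with `k` = 3, 4 or 5.  Every vertex outside of `J` (except one vertex adjacent to all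
of `J`, if `k = 3`) has exactly three neighbours, one in `J`, say `v_i`, and one each in the
neighbourhoods of `v_{i-1}` and `v_{i+1}` (`N399/DM/Str.lean`).  So `H - J` consists of circuits whose
vertices are adjacent to `v_0, v_1, ..., v_{k-1}, v_0, ...` in this order, and a nowhere-zero flow is
obtained from a colouring of the edges of these circuits with period `k` after the change of at most
two periods (`N399/DM/Cases.lean`).  This is a contradiction.  So `G` has a nowhere-zero 4-flow, or
ten classes of vertices form a Petersen graph; the class is closed under quotients, and in the second
case one glues at the ten 3-cuts (`R890/FF`). -/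

namespace Pool.Agent.Results.MP_40718a_co.DominatingSet

open Finset

/-- the simple graph in which two distinct vertices are adjacent if an edge in `F` joins them -/
def under {V E : Type} (src dst : E → V) (F : Set E) : SimpleGraph V where
  Adj x y := x ≠ y ∧ ∃ e ∈ F, (src e = x ∧ dst e = y) ∨ (src e = y ∧ dst e = x)
  symm := ⟨fun _ _ h => ⟨h.1.symm, h.2.imp fun _ he => ⟨he.1, he.2.symm⟩⟩⟩
  loopless := ⟨fun _ h => h.1 rfl⟩

/-- the edge `e` is a cut edge: its ends are not connected by the other edges -/
def IsCutEdge {V E : Type} (src dst : E → V) (e : E) : Prop :=
  ¬ (under src dst {e' | e' ≠ e}).Reachable (src e) (dst e)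

/-- the degree of `v` in the set of edges `F`, where a loop counts twice -/
def deg {V E : Type} [DecidableEq V] (src dst : E → V) (F : Finset E) (v : V) : ℕ :=
  ∑ e ∈ F, ((if src e = v then 1 else 0) + (if dst e = v then 1 else 0))

/-- the edge `e` joins the vertices `x` and `y` -/
def Joins {V E : Type} (src dst : E → V) (e : E) (x y : V) : Prop :=
  (src e = x ∧ dst e = y) ∨ (src e = y ∧ dst e = x)

/-- the vertices `x` and `y` are joined by an edge, or by two different paths with two edges (for
example, they have two common neighbours) -/
def Close {V E : Type} (src dst : E → V) (x y : V) : Prop :=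
  (∃ e, Joins src dst e x y) ∨
    ∃ (e f e' f' : E) (a b : V), (e ≠ e' ∨ f ≠ f') ∧ Joins src dst e x a ∧ Joins src dst f a y ∧
      Joins src dst e' x b ∧ Joins src dst f' b y

/-- **Theorem.** Let `D` be a set of vertices of a graph without a cut edge such that every vertex
outside of `D` which has a neighbour (other than itself) is close to a vertex of `D`, and every vertex
of `D` is close to all but at most two of the other vertices of `D`.  Then the graph has six even
subgraphs such that every edge is in exactly four of them. -/
theorem result (V E : Type) [Fintype V] [DecidableEq V] [Fintype E] [DecidableEq E]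
    (src dst : E → V) (hI : ∀ e, ¬ IsCutEdge src dst e) (D : Finset V)
    (h1 : ∀ x, x ∉ D → (∃ e, src e ≠ dst e ∧ (src e = x ∨ dst e = x)) →
      ∃ d ∈ D, Close src dst x d)
    (h2 : ∀ d ∈ D, ∀ W : Finset V, W ⊆ D → (∀ c ∈ W, c ≠ d ∧ ¬ Close src dst d c) →
      W.card ≤ 2) :
    ∃ C : Fin 6 → Finset E, (∀ i v, Even (deg src dst (C i) v)) ∧
      ∀ e, (univ.filter fun i => e ∈ C i).card = 4 := by
  classical
  -- no cut with one edge
  have hcut : Pool.Agent.TH676.A.Br src dst ∅ ∅ := by
    intro Y _ hY
    rw [sdiff_empty] at hY
    obtain ⟨e, he⟩ := card_eq_one.mp hY
    apply hI e
    intro hr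
    have hstay : ∀ x y, (under src dst {e' | e' ≠ e}).Reachable x y → (x ∈ Y ↔ y ∈ Y) := by
      rintro x y ⟨p⟩
      induction p with
      | nil => exact Iff.rfl
      | cons hadj _ ih =>
        refine Iff.trans ?_ ih
        obtain ⟨_, e', he', h1⟩ := hadj
        have hn : e' ∉ Pool.Agent.TH676.A.crs src dst Y := by
          rw [he, mem_singleton]; exact he'
        rw [Pool.Agent.TH676.A.mem_crs, not_not] at hn
        rcases h1 with ⟨h2, h3⟩ | ⟨h2, h3⟩
        · rw [h2, h3] at hn; exact hn
        · rw [h2, h3] at hn; exact hn.symm
    have hm : e ∈ Pool.Agent.TH676.A.crs src dst Y := by rw [he]; exact mem_singleton_self _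
    rw [Pool.Agent.TH676.A.mem_crs] at hm
    exact hm (hstay _ _ hr)
  have hC : N399.DM.Cl src dst := ⟨D, h1, h2⟩
  obtain ⟨C, h1, h2⟩ := Pool.Agent.TH497.BF.six (R890.FF.alg_class Pool.Agent.TH497.BF.algAg
    R890.FF.petBF ⟨R890.FF.embBF, Pool.Agent.R890.FF.emb_A⟩
    (Cl := fun s t : E → V => N399.DM.Cl s t)
    (fun s t π h => h.map π) (fun s t h h' => h.flow h') _ src dst rfl hC
    (R890.FF.n1_of_br hcut))
  exact ⟨C, h1, h2⟩

end Pool.Agent.Results.MP_40718a_co.DominatingSet
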