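import Pool.Agent.N410.DC.Alg

set_option autoImplicit false

/-! # Six even subgraphs with every edge in exactly four of them: eighteen disjoint odd cuts

A finite graph, loops and parallel edges allowed, has vertex set `V` and edge set `E`; the ends of
the edge `e` are `src e` and `dst e`.  If the graph has no cut edge and any 18 pairwise disjoint sets
of vertices with odd boundaries have at least 67 boundary edges in total (by parity: at least 68),
then it has six even subgraphs such that every edge is in exactly four of them.  Examples are the
graphs with `n` vertices in which every vertex has at least `max (16, (n - 17) / 18)` different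
neighbours, and the graphs without 12 disjoint sets of vertices with exactly three boundary edges
each.  More generally the condition is only needed for sets without boundary edges in the union `F`
of a chain of circuits or ears with at most four new edges and of doubly connected pieces; this
contains the theorem `SixteenOddPieces` of the starting library.

Proof.  After the contraction of `F` let `H` be a quotient without nowhere-zero 4-flow and without
Petersen quotient such that all proper quotients of `H` have a flow.  At least 18 vertices of `H` have
odd degree (starting library, `TH362/TF`), and no vertex has degree one or two.  A set of `k ≥ 2`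
vertices of `H` spans at most `2 k - 3` edges: otherwise a minimal dense set has an orientation in
which exactly two edges leave each vertex apart from a root (Hall), hence two disjoint connectors
(Edmonds' branching theorem), and a flow of the quotient by this set can be lifted.  So the sum of
`4 - d(y)` over the vertices `y` of `H` which are not isolated is at least six, and this gives 18
vertices of odd degree with at most 66 edges; their classes are 18 disjoint sets of `G`.  So `G` has a
nowhere-zero 4-flow, or ten classes of vertices form a Petersen graph; the condition is inherited by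
quotients, and in the second case one glues at the ten 3-cuts (`R890/FF`). -/

namespace Pool.Agent.Results.MP_40718a_co.EighteenOddCuts

open Finset

/-- the simple graph in which two distinct vertices are adjacent if an edge in `F` joins them -/
def under {V E : Type} (src dst : E → V) (F : Set E) : SimpleGraph V where
  Adj x y := x ≠ y ∧ ∃ e ∈ F, (src e = x ∧ dst e = y) ∨ (src e = y ∧ dst e = x)
  symm := ⟨fun _ _ h => ⟨h.1.symm, h.2.imp fun _ he => ⟨he.1, he.2.symm⟩⟩⟩
  loopless := ⟨fun _ h => h.1 rfl⟩

/-- the edge `e` is a cut edge: its ends are not connected by the other edges -/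
def IsCutEdge {V E : Type} (src dst : E → V) (e : E) : Prop :=
  ¬ (under src dst {e' | e' ≠ e}).Reachable (src e) (dst e)

/-- the degree of `v` in the set of edges `F`, where a loop counts twice -/
def deg {V E : Type} [DecidableEq V] (src dst : E → V) (F : Finset E) (v : V) : ℕ :=
  ∑ e ∈ F, ((if src e = v then 1 else 0) + (if dst e = v then 1 else 0))

/-- The edges with exactly one end in `X`. -/
def boundary {V E : Type} [DecidableEq V] [Fintype E] (src dst : E → V) (X : Finset V) :
    Finset E :=
  univ.filter (fun e => ¬ (src e ∈ X ↔ dst e ∈ X))

/-- The union of the sets `C j` with `j < i`. -/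
def earlier {E : Type} [DecidableEq E] {m : ℕ} (C : Fin m → Finset E) (i : Fin m) : Finset E :=
  (univ.filter (fun j => j < i)).biUnion C

/-- `H` can be added to the chain after `F`: either (short) `H` has at most four edges outside `F`
and no bridge modulo `F`: no set `Y` of vertices without boundary edges in `F` has exactly one
boundary edge in `H`; or (doubly connected) `H` contains two disjoint sets each of which connects,
modulo `F`, whatever `H` connects: every set `Y` of vertices without boundary edges in `F` and with
a boundary edge in `H` has boundary edges in both sets. -/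
def Adds {V E : Type} [DecidableEq V] [Fintype E] [DecidableEq E] (src dst : E → V)
    (F H : Finset E) : Prop :=
  ((H \ F).card ≤ 4 ∧ ∀ Y : Finset V, Disjoint (boundary src dst Y) F →
    (boundary src dst Y ∩ H).card ≠ 1) ∨
  ∃ T₁ T₂ : Finset E, T₁ ⊆ H ∧ T₂ ⊆ H ∧ Disjoint T₁ T₂ ∧ ∀ Y : Finset V,
    Disjoint (boundary src dst Y) F → ¬ Disjoint (boundary src dst Y) H →
      ¬ Disjoint (boundary src dst Y) T₁ ∧ ¬ Disjoint (boundary src dst Y) T₂

/-- Every vertex has at least `k` different neighbours. -/
def Neighbours {V E : Type} (src dst : E → V) (k : ℕ) : Prop :=
  ∀ v : V, ∃ W : Finset V, k ≤ W.card ∧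
    ∀ w ∈ W, w ≠ v ∧ ∃ e, (src e = v ∧ dst e = w) ∨ (src e = w ∧ dst e = v)

/-- For some chain of sets of edges (for instance the empty chain) any 18 pairwise disjoint sets of
vertices with odd boundaries which contain no edge of the chain have at least 67 boundary edges in
total; or the graph is dense: every vertex has at least `k` different neighbours, and there are at
most `18 k + 17` vertices and `k ≥ 16`, or at most `17 k + 16` vertices and `k ≥ 10`, or at most
`12 k + 11` vertices and `k ≥ 4` (the dense graphs without cut edge satisfy the first condition with
the empty chain). -/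
def LargeOddCuts {V E : Type} [Fintype V] [DecidableEq V] [Fintype E] [DecidableEq E]
    (src dst : E → V) : Prop :=
  (∃ (m : ℕ) (C : Fin m → Finset E), (∀ i, Adds src dst (earlier C i) (C i)) ∧
    ∀ X : Fin 18 → Finset V, (∀ i j, i ≠ j → Disjoint (X i) (X j)) →
      (∀ i, Disjoint (boundary src dst (X i)) (univ.biUnion C)) →
      (∀ i, Odd (boundary src dst (X i)).card) → 67 ≤ ∑ i, (boundary src dst (X i)).card) ∨
  ∃ k : ℕ, Neighbours src dst k ∧
    ((16 ≤ k ∧ Fintype.card V < 18 * (k + 1)) ∨ (10 ≤ k ∧ Fintype.card V < 17 * (k + 1)) ∨
      (4 ≤ k ∧ Fintype.card V < 12 * (k + 1)))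

/-- **Theorem.** A graph without a cut edge and with large odd cuts has six even subgraphs such that
every edge is in exactly four of them. -/
theorem result (V E : Type) [Fintype V] [DecidableEq V] [Fintype E] [DecidableEq E]
    (src dst : E → V) (hI : ∀ e, ¬ IsCutEdge src dst e) (h : LargeOddCuts src dst) :
    ∃ C : Fin 6 → Finset E, (∀ i v, Even (deg src dst (C i) v)) ∧
      ∀ e, (univ.filter fun i => e ∈ C i).card = 4 := by
  classical
  -- no cut with one edge
  have hcut : Pool.Agent.TH676.A.Br src dst ∅ ∅ := by
    intro Y _ hY
    rw [sdiff_empty] at hY
    obtain ⟨e, he⟩ := card_eq_one.mp hY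
    apply hI e
    intro hr
    have hstay : ∀ x y, (under src dst {e' | e' ≠ e}).Reachable x y → (x ∈ Y ↔ y ∈ Y) := by
      rintro x y ⟨p⟩
      induction p with
      | nil => exact Iff.rfl
      | cons hadj _ ih =>
        refine Iff.trans ?_ ih
        obtain ⟨_, e', he', h1⟩ := hadj
        have hn : e' ∉ Pool.Agent.TH676.A.crs src dst Y := by
          rw [he, mem_singleton]; exact he'
        rw [Pool.Agent.TH676.A.mem_crs, not_not] at hn
        rcases h1 with ⟨h2, h3⟩ | ⟨h2, h3⟩
        · rw [h2, h3] at hn; exact hn
        · rw [h2, h3] at hn; exact hn.symm
    have hm : e ∈ Pool.Agent.TH676.A.crs src dst Y := by rw [he]; exact mem_singleton_self _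
    rw [Pool.Agent.TH676.A.mem_crs] at hm
    exact hm (hstay _ _ hr)
  have hC : N410.DC.Cl src dst := by
    rcases h with ⟨m, C, hC, hO⟩ | ⟨k, hk, hn⟩
    · exact N410.DC.Cl.of_steps hC hO
    · exact N410.DC.Cl.of_nbrs (R890.FF.n1_of_br hcut) hk hn
  obtain ⟨C, h1, h2⟩ := Pool.Agent.TH497.BF.six (N410.DC.bf_cl src dst hcut hC)
  exact ⟨C, h1, h2⟩

end Pool.Agent.Results.MP_40718a_co.EighteenOddCuts
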