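import Pool.Agent.N410.DC.Far

/-!
# Six even subgraphs covering every edge four times: five sets with three boundary edges (MP_40718a_co)

Let `G` be a finite multigraph without cut edges such that among any five pairwise disjoint sets of
vertices with exactly three boundary edges two are joined by an edge, or by two different paths with
two edges. Then `G` has six even subgraphs such that every edge is in exactly four of them.

For example, this holds if all edge cuts with three edges isolate a vertex and the vertices of
degree three have independence number at most four. There is no condition on the order, and the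
number of the edge cuts with three edges is not bounded. More generally the condition is only needed
for sets without boundary edges in the union `F` of a chain of circuits or ears with at most four
new edges and of doubly connected pieces.

Proof. After the contraction of `F` let `H` be a quotient without nowhere-zero 4-flow and without
Petersen quotient such that all proper quotients of `H` have a flow. At least 18 vertices of `H`
have odd degree, no vertex has degree one or two, and `H` has girth at least five (starting library,
`TH362/TF`). A set of `k ≥ 2` vertices of `H` spans at most `2 k - 3` edges (`N410/DC/Sparse.lean`: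
Hall's theorem, Edmonds' branching theorem, and lifting of flows). So the sum of `4 - d(y)` over the
vertices `y` of `H` which are not isolated is at least six, and hence at least twelve vertices have
degree three. As `H` has girth at least five, five of them are pairwise not adjacent; their classes
are five disjoint sets of vertices of `G` with three boundary edges, and no two of them are close.

So `G` has a nowhere-zero 4-flow, or ten classes of vertices form a Petersen graph; the condition is
inherited by quotients, and the values for the ten smaller graphs in which the vertices outside of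
one class are identified are glued with the theorems of `R890/FF`.
-/

set_option autoImplicit false

namespace Pool.Agent.Results.MP_40718a_co.FarThreeCuts

open Finset

/-- the simple graph in which two distinct vertices are adjacent if an edge in `F` joins them -/
def under {V E : Type} (src dst : E → V) (F : Set E) : SimpleGraph V where
  Adj x y := x ≠ y ∧ ∃ e ∈ F, (src e = x ∧ dst e = y) ∨ (src e = y ∧ dst e = x)
  symm := ⟨fun _ _ h => ⟨h.1.symm, h.2.imp fun _ he => ⟨he.1, he.2.symm⟩⟩⟩
  loopless := ⟨fun _ h => h.1 rfl⟩

/-- the edge `e` is a cut edge: its ends are not connected by the other edges -/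
def IsCutEdge {V E : Type} (src dst : E → V) (e : E) : Prop :=
  ¬ (under src dst {e' | e' ≠ e}).Reachable (src e) (dst e)

/-- the degree of `v` in the set of edges `F`, where a loop counts twice -/
def deg {V E : Type} [DecidableEq V] (src dst : E → V) (F : Finset E) (v : V) : ℕ :=
  ∑ e ∈ F, ((if src e = v then 1 else 0) + (if dst e = v then 1 else 0))

/-- The edges with exactly one end in `X`. -/
def boundary {V E : Type} [DecidableEq V] [Fintype E] (src dst : E → V) (X : Finset V) :
    Finset E :=
  univ.filter (fun e => ¬ (src e ∈ X ↔ dst e ∈ X))

/-- The union of the sets `C j` with `j < i`. -/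
def earlier {E : Type} [DecidableEq E] {m : ℕ} (C : Fin m → Finset E) (i : Fin m) : Finset E :=
  (univ.filter (fun j => j < i)).biUnion C

/-- `H` can be added to the chain after `F`: either (short) `H` has at most four edges outside `F`
and no bridge modulo `F`: no set `Y` of vertices without boundary edges in `F` has exactly one
boundary edge in `H`; or (doubly connected) `H` contains two disjoint sets each of which connects,
modulo `F`, whatever `H` connects: every set `Y` of vertices without boundary edges in `F` and with
a boundary edge in `H` has boundary edges in both sets. -/
def Adds {V E : Type} [DecidableEq V] [Fintype E] [DecidableEq E] (src dst : E → V)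
    (F H : Finset E) : Prop :=
  ((H \ F).card ≤ 4 ∧ ∀ Y : Finset V, Disjoint (boundary src dst Y) F →
    (boundary src dst Y ∩ H).card ≠ 1) ∨
  ∃ T₁ T₂ : Finset E, T₁ ⊆ H ∧ T₂ ⊆ H ∧ Disjoint T₁ T₂ ∧ ∀ Y : Finset V,
    Disjoint (boundary src dst Y) F → ¬ Disjoint (boundary src dst Y) H →
      ¬ Disjoint (boundary src dst Y) T₁ ∧ ¬ Disjoint (boundary src dst Y) T₂

/-- The edge `e` joins the set `X` and the vertex `a`. -/
def Joins {V E : Type} (src dst : E → V) (X : Finset V) (a : V) (e : E) : Prop :=
  (src e ∈ X ∧ dst e = a) ∨ (src e = a ∧ dst e ∈ X)

/-- The sets `X` and `Y` are joined by an edge, or by two different paths with two edges. -/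
def Close {V E : Type} (src dst : E → V) (X Y : Finset V) : Prop :=
  (∃ e, (src e ∈ X ∧ dst e ∈ Y) ∨ (src e ∈ Y ∧ dst e ∈ X)) ∨
    ∃ (e f e' f' : E) (a b : V), (e ≠ e' ∨ f ≠ f') ∧ Joins src dst X a e ∧ Joins src dst Y a f ∧
      Joins src dst X b e' ∧ Joins src dst Y b f'

/-- For some chain of sets of edges (for instance the empty chain) among any five pairwise disjoint
sets of vertices with exactly three boundary edges, none of them in the chain, two are close. -/
def NeverFar {V E : Type} [Fintype V] [DecidableEq V] [Fintype E] [DecidableEq E]
    (src dst : E → V) : Prop :=
  ∃ (m : ℕ) (C : Fin m → Finset E), (∀ i, Adds src dst (earlier C i) (C i)) ∧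
    ∀ X : Fin 5 → Finset V, (∀ i j, i ≠ j → Disjoint (X i) (X j)) →
      (∀ i, Disjoint (boundary src dst (X i)) (univ.biUnion C)) → (∀ i, (boundary src dst (X i)).card = 3) →
      ∃ i j, i ≠ j ∧ Close src dst (X i) (X j)

/-- **Theorem.** A graph without a cut edge which satisfies the condition above has six even
subgraphs such that every edge is in exactly four of them. -/
theorem result (V E : Type) [Fintype V] [DecidableEq V] [Fintype E] [DecidableEq E]
    (src dst : E → V) (hI : ∀ e, ¬ IsCutEdge src dst e) (h : NeverFar src dst) :
    ∃ C : Fin 6 → Finset E, (∀ i v, Even (deg src dst (C i) v)) ∧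
      ∀ e, (univ.filter fun i => e ∈ C i).card = 4 := by
  classical
  -- no cut with one edge
  have hcut : Pool.Agent.TH676.A.Br src dst ∅ ∅ := by
    intro Y _ hY
    rw [sdiff_empty] at hY
    obtain ⟨e, he⟩ := card_eq_one.mp hY
    apply hI e
    intro hr
    have hstay : ∀ x y, (under src dst {e' | e' ≠ e}).Reachable x y → (x ∈ Y ↔ y ∈ Y) := by
      rintro x y ⟨p⟩
      induction p with
      | nil => exact Iff.rfl
      | cons hadj _ ih =>
        refine Iff.trans ?_ ih
        obtain ⟨_, e', he', h1⟩ := hadj
        have hn : e' ∉ Pool.Agent.TH676.A.crs src dst Y := by
          rw [he, mem_singleton]; exact he'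
        rw [Pool.Agent.TH676.A.mem_crs, not_not] at hn
        rcases h1 with ⟨h2, h3⟩ | ⟨h2, h3⟩
        · rw [h2, h3] at hn; exact hn
        · rw [h2, h3] at hn; exact hn.symm
    have hm : e ∈ Pool.Agent.TH676.A.crs src dst Y := by rw [he]; exact mem_singleton_self _
    rw [Pool.Agent.TH676.A.mem_crs] at hm
    exact hm (hstay _ _ hr)
  obtain ⟨m, C, hC, hO⟩ := h
  obtain ⟨C, h1, h2⟩ := Pool.Agent.TH497.BF.six
    (N410.DC.bf_gen N410.DC.inh_far5 src dst hcut (N410.DC.GCl.of_steps hC hO))
  exact ⟨C, h1, h2⟩

end Pool.Agent.Results.MP_40718a_co.FarThreeCuts
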